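import Mathlib
import Pool.Agent.Helper546_taylordefs
import Pool.Agent.Helper546_taylor3
import Pool.Agent.Helper546_taylor4

open Matrix
open scoped ComplexOrder

namespace Pool.Agent.Results.MP_08c3d6_an.TwoByTwo

open Pool.Agent.Helper546Taylor

lemma Q_two_trace (A B : Matrix (Fin 2) (Fin 2) ℂ) : ((A + B) ^ 2).trace = (Q A B 2).trace := by
  have h : Q A B 2 = B ^ 2 + 2 • (A * B) + A ^ 2 := by
    simp [Q, Finset.sum_range_succ, two_smul]
  rw [h, pow_two, mul_add, add_mul, add_mul, ← pow_two, ← pow_two, trace_add, trace_add, trace_add,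
    trace_add, trace_add, trace_smul, trace_mul_comm B A, two_smul]
  ring

/-- **The case `n = 2`, for every `k`.**  For Hermitian `2 × 2` matrices `A`, `B` and every `k`, the
eigenvalues of `(A + B)^k` are weakly majorized by the singular values of
`Q_k = ∑ C(k,i) A^i B^(k-i)`. -/
theorem result (A B : Matrix (Fin 2) (Fin 2) ℂ) (hA : A.IsHermitian) (hB : B.IsHermitian)
    (k m : ℕ) :
    topSum ((hA.add hB).pow k).eigenvalues₀ m ≤ topSum (sing (Q A B k)) m := by
  set hH := hA.add hB with hHdef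
  set hX := hH.pow k with hXdef
  have hG := isHermitian_conjTranspose_mul_self (Q A B k)
  -- the unitary `W`
  have hW1 : ((hA.eigenvectorUnitary : Matrix (Fin 2) (Fin 2) ℂ)ᴴ *
      (hB.eigenvectorUnitary : Matrix (Fin 2) (Fin 2) ℂ)) *
      ((hA.eigenvectorUnitary : Matrix (Fin 2) (Fin 2) ℂ)ᴴ *
      (hB.eigenvectorUnitary : Matrix (Fin 2) (Fin 2) ℂ))ᴴ = 1 := by
    rw [conjTranspose_mul, conjTranspose_conjTranspose, mul_assoc,
      ← mul_assoc (hB.eigenvectorUnitary : Matrix (Fin 2) (Fin 2) ℂ), unitary_mul_conj, one_mul,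
      unitary_conj_mul]
  have hW2 : ((hA.eigenvectorUnitary : Matrix (Fin 2) (Fin 2) ℂ)ᴴ *
      (hB.eigenvectorUnitary : Matrix (Fin 2) (Fin 2) ℂ))ᴴ *
      ((hA.eigenvectorUnitary : Matrix (Fin 2) (Fin 2) ℂ)ᴴ *
      (hB.eigenvectorUnitary : Matrix (Fin 2) (Fin 2) ℂ)) = 1 := by
    rw [conjTranspose_mul, conjTranspose_conjTranspose, mul_assoc,
      ← mul_assoc (hA.eigenvectorUnitary : Matrix (Fin 2) (Fin 2) ℂ), unitary_mul_conj, one_mul,
      unitary_conj_mul]
  obtain ⟨x, hx0, hx1, h00, h01, h10, h11, ho, ho'⟩ := unitary_two hW1 hW2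
  have hT := (trace_QhQ hA hB k).trans
    (trace_M (a := hA.eigenvalues) (b := hB.eigenvalues) k h00 h01 h10 h11)
  have hD := (det_QhQ hA hB k).trans
    (det_M (a := hA.eigenvalues) (b := hB.eigenvalues) k h00 h01 h10 h11 ho ho')
  -- the two eigenvalues of `A + B`
  have htr1 : (hH.eigenvalues 0 + hH.eigenvalues 1 : ℝ) = hA.eigenvalues 0 + hA.eigenvalues 1 +
      hB.eigenvalues 0 + hB.eigenvalues 1 := by
    have := trace_add A B
    rw [hH.trace_eq_sum_eigenvalues, hA.trace_eq_sum_eigenvalues, hB.trace_eq_sum_eigenvalues,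
      Fin.sum_univ_two, Fin.sum_univ_two, Fin.sum_univ_two] at this
    apply Complex.ofReal_injective
    push_cast
    linear_combination this
  have htr2 : (hH.eigenvalues 0 ^ 2 + hH.eigenvalues 1 ^ 2 : ℝ) =
      x * ((hA.eigenvalues 0 + hB.eigenvalues 0) ^ 2 +
        (hA.eigenvalues 1 + hB.eigenvalues 1) ^ 2) +
      (1 - x) * ((hA.eigenvalues 0 + hB.eigenvalues 1) ^ 2 +
        (hA.eigenvalues 1 + hB.eigenvalues 0) ^ 2) := by
    have h1 := Q_two_trace A B
    rw [trace_pow_herm hH 2, trace_Q hA hB 2, Fin.sum_univ_two, Fin.sum_univ_two, Fin.sum_univ_two,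
      Fin.sum_univ_two] at h1
    rw [← Complex.mul_conj, ← Complex.mul_conj, ← Complex.mul_conj, ← Complex.mul_conj,
      h00, h01, h10, h11] at h1
    apply Complex.ofReal_injective
    push_cast
    linear_combination h1
  have htrk : (∑ j, hX.eigenvalues₀ j : ℝ) = hH.eigenvalues 0 ^ k + hH.eigenvalues 1 ^ k := by
    have h1 := sum_eig₀ hX
    rw [trace_pow_herm hH k, Fin.sum_univ_two] at h1
    exact_mod_cast h1
  have hdetk : (∏ j, hX.eigenvalues₀ j : ℝ) = hH.eigenvalues 0 ^ k * hH.eigenvalues 1 ^ k := by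
    have h1 := prod_eig₀ hX
    rw [det_pow, hH.det_eq_prod_eigenvalues, Fin.prod_univ_two, mul_pow] at h1
    apply Complex.ofReal_injective
    rw [h1]
    push_cast
    rfl
  have hTG : (∑ j, hG.eigenvalues₀ j : ℝ) = x * ((hA.eigenvalues 0 + hB.eigenvalues 0) ^ (2 * k) +
        (hA.eigenvalues 1 + hB.eigenvalues 1) ^ (2 * k)) +
      (1 - x) * ((hA.eigenvalues 0 + hB.eigenvalues 1) ^ (2 * k) +
        (hA.eigenvalues 1 + hB.eigenvalues 0) ^ (2 * k)) :=
    Complex.ofReal_injective ((sum_eig₀ hG).trans hT)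
  have hDG : (∏ j, hG.eigenvalues₀ j : ℝ) = (x * ((hA.eigenvalues 0 + hB.eigenvalues 0) ^ k *
        (hA.eigenvalues 1 + hB.eigenvalues 1) ^ k) +
      (1 - x) * ((hA.eigenvalues 0 + hB.eigenvalues 1) ^ k *
        (hA.eigenvalues 1 + hB.eigenvalues 0) ^ k)) ^ 2 :=
    Complex.ofReal_injective ((prod_eig₀ hG).trans hD)
  -- the lists
  obtain ⟨v0, v1, hv, hvs, hvp, hm0, hm1, hm2, -⟩ :=
    two_list (Fintype.card_fin 2) hX.eigenvalues₀ hX.eigenvalues₀_antitone
  have hGnn : ∀ j, 0 ≤ hG.eigenvalues₀ j := by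
    intro j
    have h1 := (posSemidef_conjTranspose_mul_self (Q A B k)).eigenvalues_nonneg
      ((Fintype.equivOfCardEq (Fintype.card_fin (Fintype.card (Fin 2)))) j)
    simpa [IsHermitian.eigenvalues] using h1
  obtain ⟨g0, g1, hg, hgs, hgp, -, hgm1, hgm2, hgf⟩ :=
    two_list (Fintype.card_fin 2) hG.eigenvalues₀ hG.eigenvalues₀_antitone
  obtain ⟨hs0, hs1, hs2⟩ := hgf Real.sqrt
  have hgg : 0 ≤ g0 ∧ 0 ≤ g1 := by
    have n0 : 0 ≤ topSum hG.eigenvalues₀ 1 := Finset.sum_nonneg fun j _ => hGnn j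
    have hsum : 0 ≤ g0 + g1 := hgs ▸ Finset.sum_nonneg fun j _ => hGnn j
    have hprod : 0 ≤ g0 * g1 := hgp ▸ Finset.prod_nonneg fun j _ => hGnn j
    rw [hgm1] at n0
    refine ⟨n0, ?_⟩
    by_contra hneg
    push Not at hneg
    rcases n0.eq_or_lt with h | h
    · rw [← h] at hsum; linarith
    · nlinarith
  obtain ⟨hg0, hg1⟩ := hgg
  -- scalars
  set p := hH.eigenvalues 0
  set q := hH.eigenvalues 1
  set a0 := hA.eigenvalues 0
  set a1 := hA.eigenvalues 1
  set b0 := hB.eigenvalues 0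
  set b1 := hB.eigenvalues 1
  have key : v0 ≤ √g0 ∧ v0 + v1 ≤ √g0 + √g1 :=
    scalar_main k hx0 hx1 htr1 htr2 (hvs.symm.trans htrk) (hvp.symm.trans hdetk) hg0 hg1 hg
      (hgs.symm.trans hTG) (hgp.symm.trans hDG)
  show topSum hX.eigenvalues₀ m ≤ topSum (fun j => √(hG.eigenvalues₀ j)) m
  rcases m with _ | _ | m
  · rw [hm0, hs0]
  · rw [hm1, hs1]; exact key.1
  · rw [hm2 _ (by omega), hs2 _ (by omega)]; exact key.2

end Pool.Agent.Results.MP_08c3d6_an.TwoByTwo
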